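import Mathlib
import Pool.Agent.Lib.MP_cfac02_lc.Final

namespace Pool.Agent.Results.MP_cfac02_lc.SingularStrongLimit

open Cardinal Set

universe u

/-- The class `D(μ)`: posets without an antichain of cardinality `μ`. -/
def InD (μ : Cardinal.{u}) (P : Type u) [PartialOrder P] : Prop :=
  ∀ A : Set P, IsAntichain (· ≤ ·) A → #A ≠ μ

/-- `F(μ)`: the least cardinal `lam` such that every poset in `D(μ)` is a union of fewer than
`lam` ideals. -/
noncomputable def F (μ : Cardinal.{u}) : Cardinal.{u} :=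
  sInf {lam : Cardinal.{u} | ∀ (P : Type u) [PartialOrder P], InD μ P →
    ∃ 𝓘 : Set (Set P), #𝓘 < lam ∧ (∀ I ∈ 𝓘, Order.IsIdeal I) ∧ ⋃₀ 𝓘 = Set.univ}

/-- `F(μ) = μ` for every singular strong limit cardinal `μ`. Under `V = L` the generalised
continuum hypothesis holds, so that every singular cardinal is a strong limit and `F(μ) = μ` for
every singular `μ`. -/
theorem result (μ : Cardinal.{u}) (hμ : μ.IsStrongLimit) (hs : μ.IsSingular) : F μ = μ := by
  have h0 : ℵ₀ ≤ μ := hμ.aleph0_le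
  have hmem : μ ∈ {lam : Cardinal.{u} | ∀ (P : Type u) [PartialOrder P], InD μ P →
      ∃ 𝓘 : Set (Set P), #𝓘 < lam ∧ (∀ I ∈ 𝓘, Order.IsIdeal I) ∧ ⋃₀ 𝓘 = Set.univ} := by
    intro P _ hP
    have hP' : ∀ A : Set P, IsAntichain (· ≤ ·) A → #A < μ := by
      intro A hA
      by_contra hcon
      push Not at hcon
      obtain ⟨B, hBA, hB⟩ := le_mk_iff_exists_subset.1 hcon
      exact hP B (hA.subset hBA) hB
    obtain ⟨c, hc, 𝓘, h1, h2, h3⟩ := Pool.Agent.MPcfac02.sm_univ_all hμ hs.cof_ord_lt hP'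
    exact ⟨𝓘, h1.trans_lt hc, h2, eq_univ_of_univ_subset h3⟩
  refine le_antisymm (csInf_le' hmem) ?_
  refine le_csInf ⟨μ, hmem⟩ fun lam hlam => ?_
  by_contra hlt
  push Not at hlt
  -- the antichain of size `lam`
  obtain ⟨L, rfl⟩ := Pool.Agent.MPcfac02.exists_type lam
  letI : PartialOrder L :=
    { le := fun a b => a = b
      le_refl := fun _ => rfl
      le_trans := fun _ _ _ h1 h2 => Eq.trans h1 h2
      le_antisymm := fun _ _ h _ => h }
  obtain ⟨𝓘, h1, h2, h3⟩ := hlam L (fun A _ hA => by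
    have := mk_set_le A
    rw [hA] at this
    exact absurd hlt (not_lt.2 this))
  refine absurd h1 (not_lt.2 ?_)
  -- every ideal is a singleton
  have hsub : ∀ I ∈ 𝓘, ∀ a ∈ I, ∀ b ∈ I, a = b := by
    intro I hI a ha b hb
    obtain ⟨c, _, hac, hbc⟩ := (h2 I hI).Directed a ha b hb
    exact Eq.trans hac (Eq.symm hbc)
  have hex : ∀ a : L, ∃ I : 𝓘, a ∈ I.1 := by
    intro a
    have ha : a ∈ ⋃₀ 𝓘 := by rw [h3]; exact mem_univ a
    obtain ⟨I, hI, haI⟩ := ha
    exact ⟨⟨I, hI⟩, haI⟩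
  choose g hg using hex
  refine mk_le_of_injective (f := g) fun a b hab => ?_
  exact hsub (g a).1 (g a).2 a (hg a) b (by rw [hab]; exact hg b)

end Pool.Agent.Results.MP_cfac02_lc.SingularStrongLimit
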